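import Mathlib
import Pool.Agent.Lib.helper17.ModReg

set_option autoImplicit false

namespace Pool.Agent.Results.MP_106cb8_an.NotRegular

open Filter Topology ENNReal

variable {X : Type} [AddCommGroup X] [Module ℝ X]

/-- Convex, left-continuous modulars. -/
def IsModular (ρ : X → ℝ≥0∞) : Prop :=
  (∀ u, ρ u = 0 ↔ u = 0) ∧ (∀ (a : ℝ) u, |a| = 1 → ρ (a • u) = ρ u) ∧
  (∀ (a : ℝ) u v, 0 ≤ a → a ≤ 1 →
    ρ (a • u + (1 - a) • v) ≤ ENNReal.ofReal a * ρ u + ENNReal.ofReal (1 - a) * ρ v) ∧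
  ∀ u (l : ℝ), 0 < l → Tendsto (fun t : ℝ => ρ (t • u)) (𝓝[<] l) (𝓝 (ρ (l • u)))

/-- The modular space. -/
def L (ρ : X → ℝ≥0∞) : Set X := {v | ∃ l : ℝ, 0 < l ∧ ρ (l • v) < ⊤}

/-- Modularly closed subsets of the modular space. -/
def RhoClosed (ρ : X → ℝ≥0∞) (F : Set (L ρ)) : Prop :=
  ∀ (x : ℕ → L ρ) (w : L ρ), (∀ k, x k ∈ F) →
    Tendsto (fun k => ρ ((x k).1 - w.1)) atTop (𝓝 0) → w ∈ F

theorem result : ∃ (X : Type) (_ : AddCommGroup X) (_ : Module ℝ X) (ρ : X → ℝ≥0∞),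
    IsModular ρ ∧ ∃ (x : L ρ) (F : Set (L ρ)), RhoClosed ρ F ∧ x ∉ F ∧
      ∀ U V : Set (L ρ), RhoClosed ρ Uᶜ → RhoClosed ρ Vᶜ → x ∈ U → F ⊆ V →
        (U ∩ V).Nonempty := by
  refine ⟨ℕ → ℝ, inferInstance, inferInstance, H17ModReg.rho, ⟨fun u => ?_, fun a u h => ?_,
    fun a u v h0 h1 => ?_, fun u l h => tendsto_order.mpr ⟨fun a c => ?_, fun a c => ?_⟩⟩,
    H17ModReg.main _ (fun _ h => h) _ fun _ => Iff.rfl⟩
  · simp only [H17ModReg.rho, ENNReal.tsum_eq_zero, ofReal_eq_zero, funext_iff]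
    exact forall_congr' fun j => ⟨fun c => abs_eq_zero.mp (pow_eq_zero_iff j.succ_ne_zero |>.mp
      (le_antisymm c (by positivity))), fun c => by simp [c]⟩
  · simp [H17ModReg.rho, abs_mul, h]
  · simp only [H17ModReg.rho, ← ENNReal.tsum_mul_left, ← ENNReal.tsum_add]
    refine ENNReal.tsum_le_tsum fun j => ?_
    have b := sub_nonneg.mpr h1
    rw [← ofReal_mul h0, ← ofReal_mul b, ← ofReal_add (by positivity) (by positivity)]
    refine ofReal_le_ofReal ((pow_le_pow_left₀ (abs_nonneg _) ((abs_add_le _ _).trans_eq ?_) _).trans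
      ((convexOn_pow (j + 1)).2 (abs_nonneg (u j)) (abs_nonneg (v j)) h0 b (by ring)))
    simp [abs_mul, abs_of_nonneg, h0, b]
  · exact ((lowerSemicontinuous_tsum fun j => Continuous.lowerSemicontinuous (f := fun t : ℝ =>
      ENNReal.ofReal (|(t • u) j| ^ (j + 1))) (continuous_ofReal.comp (by fun_prop))) l a c).filter_mono
      nhdsWithin_le_nhds
  · refine Filter.mem_of_superset (Ioo_mem_nhdsLT h) fun t ⟨t0, t1⟩ => lt_of_le_of_lt
      (ENNReal.tsum_le_tsum fun j => ofReal_le_ofReal (pow_le_pow_left₀ (abs_nonneg _) ?_ _)) c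
    simp only [Pi.smul_apply, smul_eq_mul, abs_mul, abs_of_pos t0, abs_of_pos h]
    gcongr

end Pool.Agent.Results.MP_106cb8_an.NotRegular
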